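import Mathlib

/-!
# Rainbow `t`-matchings: the number of colours needed is not linear in `t`

`f(r,t)` is the largest number of colours of an `r`-partite `r`-graph all of whose colour classes
are matchings of size `t` and which has no rainbow matching of size `t`.  We show that
`f(r,t) ≥ c t ^ (5/4)` for every `r ≥ 4`, so `f(r,t)` is not `O_r(t)`. (The lemma `bound_odd` gives
larger exponents for large `r`; it is used in `MP_2ae433_co.NoAbsoluteExponent`.)

The colour classes are `t - 1` copies of each of `k` perfect matchings of the same `t + ... + t`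
vertices, such that the union of the `k` matchings has no other perfect matching.  The vertices get
integer labels; the sum of the labels of the vertices of an edge `e` of the matching `b` is `β b`,
except for the edge through one special vertex `x0`, where it is `-(t-1) β b`.
-/

namespace Pool.Agent.Results.MP_1e70ae_co.Superlinear

/-- An `(f,t)`-coloured `r`-partite `r`-graph: there are `r` parts, the `j`-th one being the copy
`{j} × V` of a finite set `V`; an edge has exactly one vertex in each part and is given by the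
function that picks these vertices. There are `f` colours, and `edge i a` is the `a`-th of the `t`
edges of colour `i` (equal edges may have different colours). The `t` edges of each colour are
pairwise disjoint. -/
structure ColGraph (r f t : ℕ) where
  /-- the set of which each part is a copy -/
  V : Type
  /-- it is finite -/
  fin : Finite V
  /-- the `a`-th edge of colour `i`, by its vertex in each part -/
  edge : Fin f → Fin t → Fin r → V
  /-- each colour class is a matching -/
  matching : ∀ i a b, a ≠ b → ∀ j, edge i a j ≠ edge i b j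

/-- There is a rainbow `t`-matching: `t` pairwise disjoint edges (the `s`-th one is the `a s`-th
edge of colour `c s`) with pairwise different colours. -/
def ColGraph.Rainbow {r f t : ℕ} (G : ColGraph r f t) : Prop :=
  ∃ (c : Fin t → Fin f) (a : Fin t → Fin t), Function.Injective c ∧
    ∀ s s', s ≠ s' → ∀ j, G.edge (c s) (a s) j ≠ G.edge (c s') (a s') j

/-- Some `(f,t)`-coloured `r`-partite `r`-graph has no rainbow `t`-matching. So `f(r,t)` is the
largest `f` with `Avoids r t f`. -/
def Avoids (r t f : ℕ) : Prop := ∃ G : ColGraph r f t, ¬ G.Rainbow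

/-! ## Monotonicity -/

theorem Avoids.succ_r {r t f : ℕ} (h : Avoids (r + 1) t f) : Avoids (r + 2) t f := by
  obtain ⟨G, hG⟩ := h
  refine ⟨⟨G.V, G.fin, fun i a => Fin.snoc (α := fun _ => G.V) (G.edge i a) (G.edge i a 0), ?_⟩, ?_⟩
  · intro i a b hab j
    refine Fin.lastCases ?_ (fun j => ?_) j
    · simpa using G.matching i a b hab 0
    · simpa using G.matching i a b hab j
  · rintro ⟨c, a, hc, h⟩
    refine hG ⟨c, a, hc, fun s s' hs j => ?_⟩
    have := h s s' hs j.castSucc
    simpa using this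

theorem Avoids.mono_r {r r' t f : ℕ} (h : Avoids r t f) (hr : 1 ≤ r) (hr' : r ≤ r') :
    Avoids r' t f := by
  induction r', hr' using Nat.le_induction with
  | base => exact h
  | succ m hm ih =>
    obtain ⟨k, rfl⟩ : ∃ k, m = k + 1 := ⟨m - 1, by omega⟩
    exact ih.succ_r

theorem Avoids.succ_t {r t f : ℕ} (hr : 1 ≤ r) (h : Avoids r t f) : Avoids r (t + 1) f := by
  obtain ⟨G, hG⟩ := h
  have hfin := G.fin
  refine ⟨⟨Option G.V, inferInstance, fun i a j =>
    Fin.lastCases (motive := fun _ => Option G.V) none (fun a => some (G.edge i a j)) a, ?_⟩, ?_⟩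
  · intro i a b hab j
    revert hab
    refine Fin.lastCases ?_ (fun a => ?_) a <;> refine Fin.lastCases ?_ (fun b => ?_) b
    · intro h; exact absurd rfl h
    · intro _; simp
    · intro _; simp
    · intro h
      simp only [Fin.lastCases_castSucc, ne_eq, Option.some.injEq]
      exact G.matching i a b (fun e => h (by rw [e])) j
  · rintro ⟨c, a, hc, h⟩
    -- an index `s0` such that all other edges are old
    obtain ⟨s0, hs0⟩ : ∃ s0, ∀ s, s ≠ s0 → a s ≠ Fin.last t := by
      by_cases hex : ∃ s0, a s0 = Fin.last t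
      · obtain ⟨s0, hs0⟩ := hex
        refine ⟨s0, fun s hs e => ?_⟩
        have := h s s0 hs ⟨0, by omega⟩
        simp [e, hs0] at this
      · push Not at hex
        exact ⟨0, fun s _ => hex s⟩
    have key : ∀ s : Fin t, ∃ b : Fin t, a (s0.succAbove s) = b.castSucc := by
      intro s
      exact ⟨(a (s0.succAbove s)).castPred (hs0 _ (Fin.succAbove_ne s0 s)), by simp⟩
    choose b hb using key
    refine hG ⟨fun s => c (s0.succAbove s), b,
      hc.comp Fin.succAbove_right_injective, fun s s' hs j => ?_⟩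
    have := h (s0.succAbove s) (s0.succAbove s')
      (fun e => hs (Fin.succAbove_right_injective e)) j
    rw [hb, hb] at this
    simpa using this

theorem Avoids.mono_t {r t t' f : ℕ} (hr : 1 ≤ r) (h : Avoids r t f) (ht : t ≤ t') :
    Avoids r t' f := by
  induction t', ht using Nat.le_induction with
  | base => exact h
  | succ m hm ih => exact ih.succ_t hr

theorem avoids_trivial (r t : ℕ) (ht : 1 ≤ t) : Avoids r t (t - 1) := by
  refine ⟨⟨Fin t, inferInstance, fun _ a _ => a, fun i a b h _ => h⟩, ?_⟩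
  rintro ⟨c, a, hc, _⟩
  have := Fintype.card_le_of_injective c hc
  simp only [Fintype.card_fin] at this
  omega

/-! ## Unions of perfect matchings without other perfect matchings -/

theorem avoids_of_mixFree {X B J : Type} [Fintype X] [Nonempty X] [Fintype B] [Fintype J]
    (g : J → B → X → X) (hg : ∀ j b, Function.Injective (g j b))
    (mix : ∀ C : X → B, (∀ j, Function.Injective fun x => g j (C x) x) → ∀ x y, C x = C y) :
    Avoids (Fintype.card J + 1) (Fintype.card X) ((Fintype.card X - 1) * Fintype.card B) := by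
  classical
  obtain ⟨eX⟩ : Nonempty (Fin (Fintype.card X) ≃ X) := ⟨(Fintype.equivFin X).symm⟩
  obtain ⟨eJ⟩ : Nonempty (Fin (Fintype.card J + 1) ≃ Option J) :=
    ⟨(Fintype.equivFinOfCardEq (by simp)).symm⟩
  obtain ⟨eC⟩ : Nonempty (Fin ((Fintype.card X - 1) * Fintype.card B) ≃
      Fin (Fintype.card X - 1) × B) :=
    ⟨(Fintype.equivFinOfCardEq (by simp)).symm⟩
  let vert : Option J → B → X → X := fun o b x => o.elim x (fun j => g j b x)
  have hvert : ∀ o b, Function.Injective (vert o b) := by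
    rintro (_ | j) b
    · exact fun x y h => h
    · exact hg j b
  refine ⟨⟨X, inferInstance, fun i a j => vert (eJ j) (eC i).2 (eX a), ?_⟩, ?_⟩
  · intro i a b hab j h
    exact hab (eX.injective (hvert _ _ h))
  · rintro ⟨c, a, hc, h⟩
    have ha : Function.Injective a := by
      intro s s' hs
      by_contra hne
      have := h s s' hne (eJ.symm none)
      simp only [Equiv.apply_symm_apply] at this
      exact this (congrArg eX hs)
    have hab : Function.Bijective a := Finite.injective_iff_bijective.1 ha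
    let a' := Equiv.ofBijective a hab
    let C : X → B := fun x => (eC (c (a'.symm (eX.symm x)))).2
    have hC : ∀ s, C (eX (a s)) = (eC (c s)).2 := by
      intro s
      simp only [C, Equiv.symm_apply_apply]
      have : a'.symm (a s) = s := a'.symm_apply_apply s
      rw [this]
    have hconst := mix C (by
      intro j x y hxy
      by_contra hne
      have hx : eX (a (a'.symm (eX.symm x))) = x := by
        have : a (a'.symm (eX.symm x)) = eX.symm x := a'.apply_symm_apply _
        rw [this, Equiv.apply_symm_apply]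
      have hy : eX (a (a'.symm (eX.symm y))) = y := by
        have : a (a'.symm (eX.symm y)) = eX.symm y := a'.apply_symm_apply _
        rw [this, Equiv.apply_symm_apply]
      have := h (a'.symm (eX.symm x)) (a'.symm (eX.symm y)) (fun e => hne (by
        rw [← hx, ← hy, e])) (eJ.symm (some j))
      simp only [Equiv.apply_symm_apply, hx, hy] at this
      exact this hxy)
    have hinj : Function.Injective fun s => (eC (c s)).1 := by
      intro s s' hs
      apply hc
      apply eC.injective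
      refine Prod.ext hs ?_
      rw [← hC, ← hC]
      exact hconst _ _
    have := Fintype.card_le_of_injective _ hinj
    simp only [Fintype.card_fin] at this
    have : 0 < Fintype.card X := Fintype.card_pos
    omega

theorem sum_comp_of_injective {X : Type} [Fintype X] {h : X → X} (hh : Function.Injective h)
    (L : X → ℤ) : ∑ x, L (h x) = ∑ x, L x :=
  Function.Bijective.sum_comp (Finite.injective_iff_bijective.1 hh) L

/-- cyclic shift by `β` of `{0, ..., n-1}` -/
def sh (n β u : ℕ) : ℕ := if u + β < n then u + β else u + β - n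

/-- rotation of `{a, ..., t-1}` by one -/
def rt (t a m : ℕ) : ℕ := if m < a then m else if m = t - 1 then a else m + 1

theorem sh_lt {n β u : ℕ} (hu : u < n) (hβ : β ≤ n) : sh n β u < n := by
  unfold sh; split_ifs <;> omega

theorem sh_inj {n β u v : ℕ} (hu : u < n) (hv : v < n)
    (h : sh n β u = sh n β v) : u = v := by
  unfold sh at h; split_ifs at h <;> omega

theorem rt_lt {t a m : ℕ} (hm : m < t) : rt t a m < t := by
  unfold rt; split_ifs <;> omega

theorem rt_inj {t a m m' : ℕ} (h : rt t a m = rt t a m') :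
    m = m' := by
  unfold rt at h; split_ifs at h <;> omega

theorem coord_identity {n q β m : ℕ} (hm : m < n * q) (hβ : β ≤ n) :
    (((sh n β (m / q) : ℕ) : ℤ) - ((m / q : ℕ) : ℤ)) +
      n * (((rt (n * q) (n * q - β * q) m : ℕ) : ℤ) - m) =
    β - (if m = n * q - 1 then (((n * q : ℕ) : ℤ) * β) else 0) := by
  have hq : 0 < q := Nat.pos_of_ne_zero (by rintro rfl; simp at hm)
  have hn : 0 < n := Nat.pos_of_ne_zero (by rintro rfl; simp at hm)
  have hun : m / q < n := Nat.div_lt_of_lt_mul (by rwa [mul_comm])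
  have hsub : n * q - β * q = (n - β) * q := by rw [Nat.sub_mul]
  by_cases h : m / q + β < n
  · have h1 : m < (n - β) * q := by
      rw [← Nat.div_lt_iff_lt_mul hq]; omega
    have h2 : sh n β (m / q) = m / q + β := by unfold sh; rw [if_pos h]
    have h3 : rt (n * q) (n * q - β * q) m = m := by unfold rt; rw [if_pos (by rw [hsub]; exact h1)]
    rw [h2, h3]
    by_cases h4 : m = n * q - 1
    · have h5 : β = 0 := by
        by_contra hb
        have h6 : m / q < n - 1 := by omega
        have h7 : m < (n - 1) * q := (Nat.div_lt_iff_lt_mul hq).1 h6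
        rw [Nat.sub_mul, one_mul] at h7
        omega
      subst h5
      simp
    · rw [if_neg h4]; push_cast; ring
  · have h1 : ¬ m < (n - β) * q := by
      rw [← Nat.div_lt_iff_lt_mul hq]; omega
    have h2 : sh n β (m / q) = m / q + β - n := by unfold sh; rw [if_neg h]
    have h2' : ((m / q + β - n : ℕ) : ℤ) = ((m / q : ℕ) : ℤ) + β - n := by
      rw [Nat.cast_sub (by omega)]; push_cast; ring
    rw [h2, h2']
    by_cases h4 : m = n * q - 1
    · have h3 : rt (n * q) (n * q - β * q) m = n * q - β * q := by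
        unfold rt; rw [if_neg (by rw [hsub]; exact h1), if_pos h4]
      have h5 : ((n * q - β * q : ℕ) : ℤ) = n * q - β * q := by
        rw [Nat.cast_sub (Nat.mul_le_mul_right q hβ)]; push_cast; ring
      have h6 : (m : ℤ) = n * q - 1 := by
        have : 0 < n * q := Nat.mul_pos hn hq
        have h7 : m + 1 = n * q := by omega
        have h8 : ((m + 1 : ℕ) : ℤ) = ((n * q : ℕ) : ℤ) := by rw [h7]
        push_cast at h8
        linarith
      rw [h3, h5, if_pos h4, h6]
      push_cast
      ring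
    · have h3 : rt (n * q) (n * q - β * q) m = m + 1 := by
        unfold rt; rw [if_neg (by rw [hsub]; exact h1), if_neg h4]
      rw [h3, if_neg h4]
      push_cast
      ring

/-- The general construction. `I` is a set of coordinates, `Γ` a set of groups of coordinates. -/
theorem avoids_of_coords {X B Γ I : Type} [Fintype X] [Fintype B] [Fintype Γ] [Fintype I]
    (x0 : X) (t : ℕ) (ht : Fintype.card X = t) (γ : I → Γ) (S : Γ → B → X → X)
    (hS : ∀ c b, Function.Injective (S c b))
    (ε : I → X ≃ Fin t) (hx0 : ∀ i, (ε i x0).val = t - 1)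
    (N q : I → ℕ) (hNq : ∀ i, N i * q i = t)
    (β : I → B → ℕ) (hβ : ∀ i b, β i b ≤ N i)
    (hrel : ∀ i b x, (ε i (S (γ i) b x)).val / q i = sh (N i) (β i b) ((ε i x).val / q i))
    (hconv : ∀ C : X → B, (∀ i, ∑ x, (β i (C x) : ℤ) = t * β i (C x0)) → ∀ x y, C x = C y) :
    Avoids (Fintype.card Γ + Fintype.card I + 1) t ((t - 1) * Fintype.card B) := by
  classical
  have : Nonempty X := ⟨x0⟩
  let R : I → B → X → X := fun i b x =>
    (ε i).symm ⟨rt t (t - β i b * q i) (ε i x).val, rt_lt (ε i x).isLt⟩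
  have hR : ∀ i b, Function.Injective (R i b) := by
    intro i b x y h
    have h1 := (ε i).symm.injective h
    have h2 := congrArg Fin.val h1
    exact (ε i).injective (Fin.ext (rt_inj h2))
  have hRε : ∀ i b x, (ε i (R i b x)).val = rt t (t - β i b * q i) (ε i x).val := by
    intro i b x
    simp [R]
  have main := avoids_of_mixFree (X := X) (B := B) (J := Γ ⊕ I)
    (fun j => Sum.elim S R j) (by
      rintro (c | i) b
      · exact hS c b
      · exact hR i b) (by
    intro C hC
    apply hconv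
    intro i
    have h1 := sum_comp_of_injective (hC (Sum.inl (γ i))) fun x => (((ε i x).val / q i : ℕ) : ℤ)
    have h2 := sum_comp_of_injective (hC (Sum.inr i)) fun x => (((ε i x).val : ℕ) : ℤ)
    simp only [Sum.elim_inl, Sum.elim_inr] at h1 h2
    have h3 : ∀ x, (β i (C x) : ℤ) =
        ((((ε i (S (γ i) (C x) x)).val / q i : ℕ) : ℤ) - (((ε i x).val / q i : ℕ) : ℤ)) +
        N i * ((((ε i (R i (C x) x)).val : ℕ) : ℤ) - (((ε i x).val : ℕ) : ℤ)) +
        (if x = x0 then (t : ℤ) * β i (C x0) else 0) := by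
      intro x
      have hm : (ε i x).val < N i * q i := by rw [hNq]; exact (ε i x).isLt
      have := coord_identity hm (hβ i (C x))
      rw [hNq] at this
      rw [hRε, hrel, this]
      have hiff : (ε i x).val = t - 1 ↔ x = x0 := by
        constructor
        · intro h
          exact (ε i).injective (Fin.ext (by rw [h, hx0]))
        · rintro rfl
          exact hx0 i
      by_cases hx : x = x0
      · rw [if_pos (hiff.2 hx), if_pos hx, hx]; ring
      · rw [if_neg (fun h => hx (hiff.1 h)), if_neg hx]; ring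
    rw [Finset.sum_congr rfl fun x _ => h3 x, Finset.sum_add_distrib, Finset.sum_add_distrib,
      ← Finset.mul_sum, Finset.sum_sub_distrib, Finset.sum_sub_distrib, h1, h2]
    simp)
  rw [ht, Fintype.card_sum] at main
  exact main

/-! ## The case `r = 4` -/

theorem avoids_four {n K : ℕ} (hn : 0 < n) (hK : K ^ 2 ≤ n) :
    Avoids 4 (n * n) ((n * n - 1) * (K + 1)) := by
  classical
  let B := Fin (K + 1)
  let β : Bool → B → ℕ := fun i b => if i then b.val else b.val ^ 2
  have hβ : ∀ i b, β i b ≤ n := by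
    intro i b
    have hb : b.val ≤ K := Nat.lt_succ_iff.1 b.isLt
    have h1 : b.val ^ 2 ≤ K ^ 2 := Nat.pow_le_pow_left hb 2
    have h2 : b.val ≤ b.val ^ 2 := Nat.le_self_pow (by norm_num) _
    cases i
    · simp only [β]; simpa using h1.trans hK
    · simp only [β]; simpa using (h2.trans h1).trans hK
  let S : Unit → B → Fin n × Fin n → Fin n × Fin n := fun _ b x =>
    (⟨sh n (β true b) x.1.val, sh_lt x.1.isLt (hβ _ _)⟩,
     ⟨sh n (β false b) x.2.val, sh_lt x.2.isLt (hβ _ _)⟩)
  let ε : Bool → Fin n × Fin n ≃ Fin (n * n) := fun i =>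
    if i then finProdFinEquiv else (Equiv.prodComm _ _).trans finProdFinEquiv
  have hdiv : ∀ u v : Fin n, (finProdFinEquiv (u, v)).val / n = u.val := by
    intro u v
    simp only [finProdFinEquiv_apply_val]
    rw [Nat.add_mul_div_left _ _ hn, Nat.div_eq_of_lt v.isLt, zero_add]
  have main := avoids_of_coords (X := Fin n × Fin n) (B := B) (Γ := Unit) (I := Bool)
    (⟨n - 1, by omega⟩, ⟨n - 1, by omega⟩) (n * n) (by simp) (fun _ => ()) S
    (by
      rintro _ b ⟨u, v⟩ ⟨u', v'⟩ h
      simp only [S, Prod.mk.injEq, Fin.mk.injEq] at h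
      have h1 := sh_inj u.isLt u'.isLt h.1
      have h2 := sh_inj v.isLt v'.isLt h.2
      exact Prod.ext (Fin.ext h1) (Fin.ext h2))
    ε
    (by
      have h0 : n - 1 + n * (n - 1) = n * n - 1 := by
        obtain ⟨k, rfl⟩ : ∃ k, n = k + 1 := ⟨n - 1, by omega⟩
        simp only [Nat.add_sub_cancel]
        have : (k + 1) * (k + 1) = (k + (k + 1) * k) + 1 := by ring
        omega
      intro i
      cases i <;> simp [ε, h0])
    (fun _ => n) (fun _ => n) (fun _ => rfl) β hβ
    (by
      rintro i b ⟨u, v⟩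
      cases i
      · simp only [ε, S, Bool.false_eq_true, if_false, Equiv.trans_apply, Equiv.prodComm_apply,
          Prod.swap_prod_mk, hdiv]
      · simp only [ε, S, if_true, hdiv])
    (by
      intro C hC
      have h1 := hC true
      have h2 := hC false
      simp only [β, if_true, Bool.false_eq_true, if_false] at h1 h2
      set x0 : Fin n × Fin n := (⟨n - 1, by omega⟩, ⟨n - 1, by omega⟩) with hx0
      have h3 : ∑ x, (((C x).val : ℤ) - (C x0).val) ^ 2 = 0 := by
        have h4 : ∀ x, (((C x).val : ℤ) - (C x0).val) ^ 2 =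
            (((C x).val ^ 2 : ℕ) : ℤ) - 2 * (C x0).val * (C x).val + ((C x0).val : ℤ) ^ 2 := by
          intro x; push_cast; ring
        rw [Finset.sum_congr rfl fun x _ => h4 x, Finset.sum_add_distrib, Finset.sum_sub_distrib,
          ← Finset.mul_sum, h1, h2]
        simp only [Finset.sum_const, Finset.card_univ, Fintype.card_prod, Fintype.card_fin,
          nsmul_eq_mul]
        push_cast
        ring
      have h5 := (Finset.sum_eq_zero_iff_of_nonneg (fun x _ => sq_nonneg _)).1 h3
      have h6 : ∀ x, C x = C x0 := by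
        intro x
        have := h5 x (Finset.mem_univ x)
        have h7 : ((C x).val : ℤ) - (C x0).val = 0 := by simpa using this
        exact Fin.ext (by omega)
      intro x y
      rw [h6 x, h6 y])
  simpa [B] using main

/-! ## Many parts -/

theorem avoids_odd {D t : ℕ} (ht : 0 < t) (ρ : ℕ) :
    Avoids (2 * D + 1) t ((t - 1) *
      Fintype.card {b : Fin D → Fin (t + 1) // ∑ i, (b i).val ^ 2 = ρ}) := by
  classical
  let B := {b : Fin D → Fin (t + 1) // ∑ i, (b i).val ^ 2 = ρ}
  let β : Fin D → B → ℕ := fun i b => (b.1 i).val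
  have hβ : ∀ i b, β i b ≤ t := fun i b => Nat.lt_succ_iff.1 (b.1 i).isLt
  have main := avoids_of_coords (X := Fin t) (B := B) (Γ := Fin D) (I := Fin D)
    ⟨t - 1, by omega⟩ t (by simp) (fun i => i)
    (fun i b x => ⟨sh t (β i b) x.val, sh_lt x.isLt (hβ _ _)⟩)
    (by
      intro i b x y h
      simp only [Fin.mk.injEq] at h
      exact Fin.ext (sh_inj x.isLt y.isLt h))
    (fun _ => Equiv.refl _) (fun _ => rfl) (fun _ => t) (fun _ => 1) (fun _ => mul_one t) β hβ
    (by intro i b x; simp)
    (by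
      intro C hC
      set x0 : Fin t := ⟨t - 1, by omega⟩ with hx0
      have h3 : ∑ x, ∑ i, (((C x).1 i : ℕ) - ((C x0).1 i : ℕ) : ℤ) ^ 2 = 0 := by
        have h4 : ∀ x, ∑ i, (((C x).1 i : ℕ) - ((C x0).1 i : ℕ) : ℤ) ^ 2 =
            2 * (ρ : ℤ) - 2 * ∑ i, (((C x0).1 i : ℕ) : ℤ) * ((C x).1 i : ℕ) := by
          intro x
          have h5 : ∑ i, (((C x).1 i : ℕ) : ℤ) ^ 2 = ρ := by
            have := (C x).2
            exact_mod_cast this
          have h6 : ∑ i, (((C x0).1 i : ℕ) : ℤ) ^ 2 = ρ := by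
            have := (C x0).2
            exact_mod_cast this
          have h7 : ∀ i, (((C x).1 i : ℕ) - ((C x0).1 i : ℕ) : ℤ) ^ 2 =
            (((C x).1 i : ℕ) : ℤ) ^ 2 + (((C x0).1 i : ℕ) : ℤ) ^ 2
              - 2 * ((((C x0).1 i : ℕ) : ℤ) * ((C x).1 i : ℕ)) := by
            intro i; ring
          rw [Finset.sum_congr rfl fun i _ => h7 i, Finset.sum_sub_distrib,
            Finset.sum_add_distrib, h5, h6, ← Finset.mul_sum]
          ring
        rw [Finset.sum_congr rfl fun x _ => h4 x, Finset.sum_sub_distrib, ← Finset.mul_sum,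
          ← Finset.mul_sum, Finset.sum_comm]
        have h8 : ∀ i, ∑ x, (((C x0).1 i : ℕ) : ℤ) * ((C x).1 i : ℕ) =
            (((C x0).1 i : ℕ) : ℤ) ^ 2 * t := by
          intro i
          rw [← Finset.mul_sum]
          have := hC i
          simp only [β] at this
          rw [this]; ring
        have h6 : ∑ i, (((C x0).1 i : ℕ) : ℤ) ^ 2 = ρ := by
          have := (C x0).2
          exact_mod_cast this
        rw [Finset.sum_congr rfl fun i _ => h8 i, ← Finset.sum_mul, h6]
        simp only [Finset.sum_const, Finset.card_univ, Fintype.card_fin, nsmul_eq_mul]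
        ring
      have h5 := (Finset.sum_eq_zero_iff_of_nonneg (fun x _ =>
        Finset.sum_nonneg fun i _ => sq_nonneg _)).1 h3
      have h6 : ∀ x, C x = C x0 := by
        intro x
        have h7 := (Finset.sum_eq_zero_iff_of_nonneg (fun i _ => sq_nonneg _)).1
          (h5 x (Finset.mem_univ x))
        apply Subtype.ext
        funext i
        have h8 := h7 i (Finset.mem_univ i)
        have h9 : (((C x).1 i : ℕ) : ℤ) - ((C x0).1 i : ℕ) = 0 := by simpa using h8
        exact Fin.ext (by omega)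
      intro x y
      rw [h6 x, h6 y])
  have e : Fintype.card (Fin D) + Fintype.card (Fin D) + 1 = 2 * D + 1 := by
    simp; ring
  rw [e] at main
  exact main

/-! ## Bounds by powers of `t` -/

theorem bound_four (r t : ℕ) (hr : 4 ≤ r) (ht : 2 ≤ t) :
    ∃ f : ℕ, Avoids r t f ∧ (1 / 9 : ℝ) * (t : ℝ) ^ (5 / 4 : ℝ) ≤ f := by
  have ht0 : (0 : ℝ) < t := by exact_mod_cast (by omega : 0 < t)
  have hsplit : (t : ℝ) ^ (5 / 4 : ℝ) = t * (t : ℝ) ^ (1 / 4 : ℝ) := by
    rw [show (5 / 4 : ℝ) = 1 + 1 / 4 by norm_num, Real.rpow_add ht0, Real.rpow_one]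
  by_cases h4 : 4 ≤ t
  · obtain ⟨n, hn⟩ : ∃ n, n = Nat.sqrt t := ⟨_, rfl⟩
    obtain ⟨K, hK⟩ : ∃ K, K = Nat.sqrt n := ⟨_, rfl⟩
    have hn1 : n * n ≤ t := by rw [hn]; exact Nat.sqrt_le t
    have hn2 : t < (n + 1) * (n + 1) := by rw [hn]; exact Nat.lt_succ_sqrt t
    have hK1 : K * K ≤ n := by rw [hK]; exact Nat.sqrt_le n
    have hK2 : n < (K + 1) * (K + 1) := by rw [hK]; exact Nat.lt_succ_sqrt n
    have hn3 : 2 ≤ n := by
      by_contra h
      have : n ≤ 1 := by omega
      have : (n + 1) * (n + 1) ≤ 4 := by nlinarith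
      omega
    refine ⟨(n * n - 1) * (K + 1), ((avoids_four (by omega) (by rw [sq]; exact hK1)).mono_t
      (by norm_num) hn1).mono_r (by norm_num) hr, ?_⟩
    have h1 : t ≤ 3 * (n * n - 1) := by
      have h2 : (n + 1) * (n + 1) = n * n + 2 * n + 1 := by ring
      have h3 : 2 * n ≤ n * n := Nat.mul_le_mul_right n hn3
      have h5 : 4 ≤ n * n := Nat.mul_le_mul hn3 hn3
      omega
    have h2 : (t : ℝ) ≤ ((K : ℝ) + 1) ^ 4 := by
      have h3 : t ≤ ((K + 1) * (K + 1)) * ((K + 1) * (K + 1)) :=
        hn2.le.trans (Nat.mul_le_mul hK2 hK2)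
      calc (t : ℝ) ≤ ((((K + 1) * (K + 1)) * ((K + 1) * (K + 1)) : ℕ) : ℝ) := by exact_mod_cast h3
        _ = ((K : ℝ) + 1) ^ 4 := by push_cast; ring
    have h3 : (t : ℝ) ^ (1 / 4 : ℝ) ≤ (K : ℝ) + 1 := by
      calc (t : ℝ) ^ (1 / 4 : ℝ) ≤ (((K : ℝ) + 1) ^ 4) ^ (1 / 4 : ℝ) :=
            Real.rpow_le_rpow ht0.le h2 (by norm_num)
        _ = (K : ℝ) + 1 := by
            rw [← Real.rpow_natCast, ← Real.rpow_mul (by positivity)]
            norm_num
    have h4 : (t : ℝ) ≤ 3 * ((n * n - 1 : ℕ) : ℝ) := by exact_mod_cast h1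
    rw [hsplit]
    push_cast
    have h5 : (0 : ℝ) ≤ ((n * n - 1 : ℕ) : ℝ) := Nat.cast_nonneg _
    have h6 : (0 : ℝ) ≤ (t : ℝ) ^ (1 / 4 : ℝ) := by positivity
    calc 1 / 9 * ((t : ℝ) * (t : ℝ) ^ (1 / 4 : ℝ))
        ≤ 1 / 9 * ((3 * ((n * n - 1 : ℕ) : ℝ)) * ((K : ℝ) + 1)) := by
          apply mul_le_mul_of_nonneg_left _ (by norm_num)
          exact mul_le_mul h4 h3 h6 (by positivity)
      _ ≤ ((n * n - 1 : ℕ) : ℝ) * ((K : ℝ) + 1) := by
          have : 0 ≤ ((n * n - 1 : ℕ) : ℝ) * ((K : ℝ) + 1) := by positivity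
          linarith
  · refine ⟨t - 1, avoids_trivial r t (by omega), ?_⟩
    have h1 : (t : ℝ) ^ (5 / 4 : ℝ) ≤ (t : ℝ) ^ (2 : ℝ) :=
      Real.rpow_le_rpow_of_exponent_le (by exact_mod_cast (by omega : 1 ≤ t)) (by norm_num)
    have h2 : (t : ℝ) ^ (2 : ℝ) = (t : ℝ) ^ 2 := by norm_cast
    have h3 : (t : ℝ) ≤ 3 := by exact_mod_cast (by omega : t ≤ 3)
    have h4 : (1 : ℝ) ≤ ((t - 1 : ℕ) : ℝ) := by exact_mod_cast (by omega : 1 ≤ t - 1)
    have h5 : (t : ℝ) ^ (5 / 4 : ℝ) ≤ 9 := by
      calc (t : ℝ) ^ (5 / 4 : ℝ) ≤ (t : ℝ) ^ 2 := h1.trans h2.le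
        _ ≤ 3 ^ 2 := pow_le_pow_left₀ ht0.le h3 2
        _ = 9 := by norm_num
    linarith

theorem bound_odd (D r t : ℕ) (hD : 1 ≤ D) (hr : 2 * D + 1 ≤ r) (ht : 2 ≤ t) :
    ∃ f : ℕ, Avoids r t f ∧ (1 / (4 * D) : ℝ) * (t : ℝ) ^ (D - 1) ≤ f := by
  classical
  obtain ⟨ρ, hρ⟩ : ∃ ρ : ℕ, (t + 1) ^ D ≤ (D * t ^ 2 + 1) *
      Fintype.card {b : Fin D → Fin (t + 1) // ∑ i, (b i).val ^ 2 = ρ} := by
    by_contra hcon
    push Not at hcon
    have hmaps : ∀ b ∈ (Finset.univ : Finset (Fin D → Fin (t + 1))),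
        ∑ i, (b i).val ^ 2 ∈ Finset.range (D * t ^ 2 + 1) := by
      intro b _
      rw [Finset.mem_range, Nat.lt_succ_iff]
      calc ∑ i, (b i).val ^ 2 ≤ ∑ _i : Fin D, t ^ 2 :=
            Finset.sum_le_sum fun i _ => Nat.pow_le_pow_left (Nat.lt_succ_iff.1 (b i).isLt) 2
        _ = D * t ^ 2 := by simp
    have h1 := Finset.card_eq_sum_card_fiberwise hmaps
    have h2 : (Finset.univ : Finset (Fin D → Fin (t + 1))).card = (t + 1) ^ D := by
      simp [Finset.card_univ]
    have h3 : ∀ ρ ∈ Finset.range (D * t ^ 2 + 1),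
        (D * t ^ 2 + 1) * ((Finset.univ : Finset (Fin D → Fin (t + 1))).filter
          fun b => ∑ i, (b i).val ^ 2 = ρ).card < (t + 1) ^ D := by
      intro ρ _
      have := hcon ρ
      rwa [Fintype.card_subtype] at this
    have h4 := Finset.sum_lt_sum_of_nonempty (Finset.nonempty_range_iff.2 (by omega)) h3
    rw [← Finset.mul_sum, Finset.sum_const, Finset.card_range, smul_eq_mul] at h4
    rw [h2] at h1
    rw [← h1] at h4
    exact lt_irrefl _ h4
  refine ⟨_, (avoids_odd (D := D) (t := t) (by omega) ρ).mono_r (by omega) hr, ?_⟩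
  set F := Fintype.card {b : Fin D → Fin (t + 1) // ∑ i, (b i).val ^ 2 = ρ} with hF
  have ht1 : (2 : ℝ) ≤ t := by exact_mod_cast ht
  have hD1 : (1 : ℝ) ≤ D := by exact_mod_cast hD
  have hF0 : (0 : ℝ) ≤ F := Nat.cast_nonneg _
  have h1 : (t : ℝ) ^ D ≤ (D * (t : ℝ) ^ 2 + 1) * F := by
    have h2 : t ^ D ≤ (t + 1) ^ D := Nat.pow_le_pow_left (by omega) D
    have h3 := h2.trans hρ
    exact_mod_cast h3
  have h2 : (D * (t : ℝ) ^ 2 + 1) ≤ 2 * D * (t : ℝ) ^ 2 := by nlinarith [sq_nonneg (t : ℝ)]
  have h3 : (t : ℝ) ^ D ≤ 2 * D * (t : ℝ) ^ 2 * F :=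
    h1.trans (mul_le_mul_of_nonneg_right h2 hF0)
  have h4 : (t : ℝ) ^ D = (t : ℝ) ^ (D - 1) * t := by
    rw [← pow_succ]; congr 1; omega
  have h5 : (t : ℝ) ^ (D - 1) ≤ 2 * D * t * F := by
    rw [h4] at h3
    have ht0 : (0 : ℝ) < t := by linarith
    have h6 : (t : ℝ) ^ (D - 1) * t ≤ (2 * D * t * F) * t := by
      calc (t : ℝ) ^ (D - 1) * t ≤ 2 * D * (t : ℝ) ^ 2 * F := h3
        _ = (2 * D * t * F) * t := by ring
    exact le_of_mul_le_mul_right h6 ht0
  have h6 : (((t - 1) * F : ℕ) : ℝ) = ((t : ℝ) - 1) * F := by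
    rw [Nat.cast_mul, Nat.cast_sub (by omega)]; simp
  rw [h6, one_div, inv_mul_le_iff₀ (by positivity)]
  have h7 : (t : ℝ) ≤ 2 * ((t : ℝ) - 1) := by linarith
  calc (t : ℝ) ^ (D - 1) ≤ 2 * D * t * F := h5
    _ ≤ 2 * D * (2 * ((t : ℝ) - 1)) * F := by
        apply mul_le_mul_of_nonneg_right _ hF0
        apply mul_le_mul_of_nonneg_left h7 (by positivity)
    _ = 4 * D * (((t : ℝ) - 1) * F) := by ring

/-- **`f(r,t)` is not linear in `t`**: it is false that for every `r ≥ 2` there is a constant `C`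
with `f(r,t) ≤ C t` for all `t ≥ 1`. In fact for every `r ≥ 4` there is a constant `c > 0` with
`f(r,t) ≥ c t ^ (5/4)` for all `t ≥ 2`. -/
theorem result :
    (¬ ∀ r : ℕ, 2 ≤ r → ∃ C : ℝ, ∀ t : ℕ, 1 ≤ t → ∀ f : ℕ, Avoids r t f → (f : ℝ) ≤ C * t) ∧
    ∀ r : ℕ, 4 ≤ r → ∃ c : ℝ, 0 < c ∧ ∀ t : ℕ, 2 ≤ t → ∃ f : ℕ, Avoids r t f ∧
      c * (t : ℝ) ^ (5 / 4 : ℝ) ≤ f := by
  constructor
  · intro h
    obtain ⟨C, hC⟩ := h 4 (by norm_num)
    have h1 : ∀ t : ℕ, 2 ≤ t → (t : ℝ) ^ (1 / 4 : ℝ) ≤ 9 * C := by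
      intro t ht
      have ht0 : (0 : ℝ) < t := by exact_mod_cast (by omega : 0 < t)
      obtain ⟨f, hf, hb⟩ := bound_four 4 t le_rfl ht
      have h2 := hC t (by omega) f hf
      have hsplit : (t : ℝ) ^ (5 / 4 : ℝ) = (t : ℝ) ^ (1 / 4 : ℝ) * t := by
        rw [show (5 / 4 : ℝ) = 1 / 4 + 1 by norm_num, Real.rpow_add ht0, Real.rpow_one]
      rw [hsplit] at hb
      have h3 : (t : ℝ) ^ (1 / 4 : ℝ) * t ≤ (9 * C) * t := by linarith
      exact le_of_mul_le_mul_right h3 ht0
    obtain ⟨N, hN⟩ := exists_nat_gt (9 * C)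
    have h2 := h1 ((N + 2) ^ 4) (by
      have : 1 ≤ (N + 2) ^ 4 := Nat.one_le_pow _ _ (by omega)
      have h3 : 2 ^ 4 ≤ (N + 2) ^ 4 := Nat.pow_le_pow_left (by omega) 4
      omega)
    have h3 : ((((N + 2) ^ 4 : ℕ) : ℝ)) ^ (1 / 4 : ℝ) = (N : ℝ) + 2 := by
      push_cast
      rw [← Real.rpow_natCast, ← Real.rpow_mul (by positivity)]
      norm_num
    rw [h3] at h2
    linarith
  · intro r hr
    exact ⟨1 / 9, by norm_num, fun t ht => bound_four r t hr ht⟩

end Pool.Agent.Results.MP_1e70ae_co.Superlinear
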